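import Pool.Agent.Helper21.KQ.Win
import Pool.Agent.Helper10.KQ.Far

/-!
# Windows and units: the splitting and the separation (project KQ, block Q1)
-/

set_option autoImplicit false

namespace Pool.Agent.Helper21.KQ

/-- The splitting `t = (s mod r ^ j, t' mod M')`. -/
theorem exists_crt {r j M' u₁ : ℕ} (hr : r.Prime) (hj : 0 < j) (hM' : ¬ r ∣ M') (hM0 : 0 < M')
    (hu : ¬ r ∣ u₁) : ∃ (X p : ℤ), (M' : ℤ) ∣ X * (r ^ j : ℕ) - 1 ∧ ((r ^ j : ℕ) : ℤ) ∣ p * u₁ - 1 ∧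
      ∀ (s : ℤ) (t' : ℕ), ¬ (r : ℤ) ∣ s → t'.Coprime M' → ∃ t : ℕ, ¬ r ∣ t ∧ t.Coprime M' ∧
        ∀ w : ℤ, ∃ z : ℤ, (t : ℚ) * w / ((r ^ j : ℕ) * M') =
          s * (p * w) / (r ^ j : ℕ) + t' * (w * X / M') + z := by
  set Q : ℕ := r ^ j with hQ
  have hQ0 : 0 < Q := pow_pos hr.pos j
  have hrQ : (r : ℤ) ∣ (Q : ℤ) := by
    rw [hQ]
    exact_mod_cast dvd_pow_self r hj.ne'
  have hcop : IsCoprime (Q : ℤ) (M' : ℤ) := by
    rw [Nat.isCoprime_iff_coprime, hQ]
    exact Nat.Coprime.pow_left _ ((Nat.Prime.coprime_iff_not_dvd hr).2 hM')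
  have hcop2 : IsCoprime (u₁ : ℤ) (Q : ℤ) := by
    rw [Nat.isCoprime_iff_coprime, hQ]
    exact Nat.Coprime.pow_right _ ((Nat.Prime.coprime_iff_not_dvd hr).2 hu).symm
  obtain ⟨X, Y, hXY⟩ := hcop
  obtain ⟨p, q, hpq⟩ := hcop2
  refine ⟨X, p, ⟨-Y, by linear_combination hXY⟩, ⟨-q, by linear_combination hpq⟩, ?_⟩
  intro s t' hs ht'
  have hrp : Prime (r : ℤ) := Nat.prime_iff_prime_int.1 hr
  set T : ℤ := s * p * M' * (Y * M') + t' * (X * Q) with hT
  have hN0 : (0 : ℤ) < Q * M' := by positivity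
  obtain ⟨t, ht⟩ := Int.eq_ofNat_of_zero_le (Int.emod_nonneg T hN0.ne')
  have htT : T = t + (Q * M') * (T / (Q * M')) := by
    have := Int.emod_add_mul_ediv T (Q * M')
    rw [ht] at this
    exact this.symm
  have hr1 : ¬ (r : ℤ) ∣ T := by
    intro h
    have h1 : (r : ℤ) ∣ s * p * M' * (Y * M') := by
      have h2 : (r : ℤ) ∣ t' * (X * Q) := (hrQ.mul_left X).mul_left _
      exact (Int.dvd_add_left h2).1 h
    have hne : ∀ {x y : ℤ}, x * y = 1 - (Q : ℤ) * (0 : ℤ) → True := fun _ => trivial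
    rcases hrp.dvd_or_dvd h1 with h2 | h2
    · rcases hrp.dvd_or_dvd h2 with h3 | h3
      · rcases hrp.dvd_or_dvd h3 with h4 | h4
        · exact hs h4
        · have h5 : (r : ℤ) ∣ 1 := by
            rw [← hpq]
            exact dvd_add (h4.mul_right _) (hrQ.mul_left q)
          exact hrp.not_isUnit (isUnit_of_dvd_one h5)
      · exact hM' (by exact_mod_cast h3)
    · have h5 : (r : ℤ) ∣ 1 := by
        rw [← hXY]
        exact dvd_add (hrQ.mul_left X) h2
      exact hrp.not_isUnit (isUnit_of_dvd_one h5)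
  refine ⟨t, ?_, ?_, ?_⟩
  · intro h
    apply hr1
    rw [htT]
    refine dvd_add (by exact_mod_cast h) ?_
    rw [mul_assoc]
    exact hrQ.mul_right _
  · have h1 : IsCoprime T (M' : ℤ) := by
      have h2 : T = t' + M' * (s * p * M' * Y - t' * Y) := by
        rw [hT]
        linear_combination (t' : ℤ) * hXY
      rw [h2, IsCoprime.add_mul_left_left_iff]
      exact Nat.isCoprime_iff_coprime.2 ht'
    rw [htT, mul_comm (Q : ℤ) (M' : ℤ), mul_assoc, IsCoprime.add_mul_left_left_iff] at h1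
    exact Nat.isCoprime_iff_coprime.1 h1
  · intro w
    refine ⟨-(T / (Q * M')) * w - s * p * w * X, ?_⟩
    have hQq : (Q : ℚ) ≠ 0 := by exact_mod_cast hQ0.ne'
    have hMq : (M' : ℚ) ≠ 0 := by exact_mod_cast hM0.ne'
    have h1 : (t : ℚ) = (T : ℚ) - (Q * M') * ((T / (Q * M') : ℤ) : ℚ) := by
      have : (T : ℚ) = ((t + (Q * M') * (T / (Q * M')) : ℤ) : ℚ) := by rw [← htT]
      push_cast at this
      push_cast
      linarith
    have h2 : (T : ℚ) = s * p * M' * (Y * M') + t' * (X * Q) := by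
      rw [hT]
      push_cast
      ring
    have h3 : (X : ℚ) * Q + Y * M' = 1 := by exact_mod_cast hXY
    have h4 : (Y : ℚ) * M' = 1 - X * Q := by linarith
    rw [h1, h2, h4]
    push_cast
    field_simp
    ring

/-- **The separation**, normalised form. -/
theorem sep_core {r j M' u₁ w A : ℕ} (hr : r.Prime) (hj : 0 < j) (hM' : ¬ r ∣ M') (hM0 : 0 < M')
    (hu : ¬ r ∣ u₁) (hA : 0 < A) (hrA : 4 * A < r) {δ : ℚ} (hδA : 1 / (A : ℚ) ≤ δ) (h4 : 4 * δ ≤ 1)
    (h2u : 2 * u₁ < r ^ j * M') (h2w : 2 * w < r ^ j * M') (hne : u₁ ≠ w) :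
    ∃ t : ℕ, ¬ r ∣ t ∧ t.Coprime M' ∧
      ¬ (InW δ ((t : ℚ) * u₁ / ((r ^ j : ℕ) * M')) ↔ InW δ ((t : ℚ) * w / ((r ^ j : ℕ) * M'))) := by
  by_contra hcon
  push Not at hcon
  obtain ⟨X, p, hX, hp, hcrt⟩ := exists_crt hr hj hM' hM0 hu
  set Q : ℕ := r ^ j with hQ
  have hQ0 : 0 < Q := pow_pos hr.pos j
  have hAq : (0 : ℚ) < A := by exact_mod_cast hA
  have hδ0 : 0 < δ := lt_of_lt_of_le (by positivity) hδA
  have hA4 : 4 ≤ A := by
    have h1 : 1 / (A : ℚ) ≤ 1 / 4 := by linarith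
    have h2 := (one_div_le_one_div hAq (by norm_num)).1 h1
    exact_mod_cast h2
  have hrQ : r ≤ Q := by
    rw [hQ]
    exact Nat.le_self_pow hj.ne' r
  have hAδ : 1 ≤ (A : ℚ) * δ := by
    rw [div_le_iff₀ hAq] at hδA
    linarith
  have hrAq : (4 : ℚ) * A < r := by exact_mod_cast hrA
  have h8r : 8 < 2 * (r : ℚ) * δ := by nlinarith
  have h8Q : 8 < 2 * (Q : ℚ) * δ := by
    have : (r : ℚ) ≤ Q := by exact_mod_cast hrQ
    nlinarith
  have hodd : Odd Q := by
    rw [hQ]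
    exact (hr.odd_of_ne_two (by omega)).pow
  have hQq : (0 : ℚ) < Q := by exact_mod_cast hQ0
  have hMq : (0 : ℚ) < M' := by exact_mod_cast hM0
  -- the multiplier
  set z := round (((w : ℤ) * p : ℤ) / (Q : ℚ)) with hz
  set b : ℤ := w * p - Q * z with hb
  have hb2 : 2 * |b| < Q := by
    have h1 := abs_sub_round ((((w : ℤ) * p : ℤ) : ℚ) / (Q : ℚ))
    rw [← hz] at h1
    have h2 : ((b : ℤ) : ℚ) = ((((w : ℤ) * p : ℤ) : ℚ) / (Q : ℚ) - z) * Q := by
      rw [hb]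
      push_cast
      field_simp
    have h3 : 2 * |(b : ℚ)| ≤ Q := by
      rw [h2, abs_mul, abs_of_pos hQq]
      nlinarith
    have h5 : 2 * |b| ≤ (Q : ℤ) := by exact_mod_cast h3
    obtain ⟨c, hc⟩ := hodd
    omega
  have key : ∀ (s : ℤ) (t' : ℕ), ¬ (r : ℤ) ∣ s → t'.Coprime M' →
      (InW δ (s / Q + t' * (u₁ * X / M')) ↔ InW δ (s * b / Q + t' * (w * X / M'))) := by
    intro s t' hs ht'
    obtain ⟨t, ht1, ht2, ht3⟩ := hcrt s t' hs ht'
    obtain ⟨z₁, hz₁⟩ := ht3 u₁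
    obtain ⟨z₂, hz₂⟩ := ht3 w
    have h1 := hcon t ht1 ht2
    obtain ⟨q, hq⟩ := hp
    have e1 : (p : ℚ) * u₁ = 1 + Q * q := by
      have : ((p * u₁ - 1 : ℤ) : ℚ) = ((Q * q : ℤ) : ℚ) := by rw [hq]
      push_cast at this
      linarith
    have c1 : InW δ ((t : ℚ) * u₁ / (Q * M')) ↔ InW δ (s / Q + t' * (u₁ * X / M')) := by
      refine InW_congr (s * q + z₁) ?_
      have h2 : (t : ℚ) * u₁ / (Q * M') = s * (p * u₁) / Q + t' * (u₁ * X / M') + z₁ := by
        have := hz₁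
        push_cast at this ⊢
        exact this
      rw [h2, e1]
      push_cast
      field_simp
      ring
    have c2 : InW δ ((t : ℚ) * w / (Q * M')) ↔ InW δ (s * b / Q + t' * (w * X / M')) := by
      refine InW_congr (s * z + z₂) ?_
      have h2 : (t : ℚ) * w / (Q * M') = s * (p * w) / Q + t' * (w * X / M') + z₂ := by
        have := hz₂
        push_cast at this ⊢
        exact this
      rw [h2, hb]
      push_cast
      field_simp
      ring
    rw [← c1, ← c2]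
    have h5 : (((r ^ j : ℕ) : ℚ)) = (Q : ℚ) := by rw [hQ]
    exact h1
  have hc1 : ¬ (r : ℤ) ∣ b := by
    refine not_dvd_of_iff (j := j) (x₀ := (1 : ℕ) * (u₁ * X / M')) (y₀ := (1 : ℕ) * (w * X / M')) hr hj h4 h8r ?_
    intro s hs
    exact key s 1 hs (Nat.coprime_one_left M')
  have hc2 : |b| ≤ 1 := abs_le_one_of_iff (r := r) (x₀ := (1 : ℕ) * (u₁ * X / M')) (y₀ := (1 : ℕ) * (w * X / M'))
    (by omega) hQ0 h4 h8Q hb2 fun s hs => key s 1 hs (Nat.coprime_one_left M')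
  have hb0 : b ≠ 0 := by
    intro h
    rw [h] at hc1
    exact hc1 (dvd_zero _)
  have hcopQM : IsCoprime (Q : ℤ) (M' : ℤ) := by
    rw [Nat.isCoprime_iff_coprime, hQ]
    exact Nat.Coprime.pow_left _ ((Nat.Prime.coprime_iff_not_dvd hr).2 hM')
  have hcopXM : IsCoprime (X : ℤ) (M' : ℤ) := by
    obtain ⟨c, hc⟩ := hX
    exact ⟨Q, -c, by linear_combination hc⟩
  -- `γ` is an integer only if `M'` divides
  have hdiv : ∀ v : ℤ, (∃ c : ℤ, (v : ℚ) * X / M' = c) → (M' : ℤ) ∣ v := by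
    rintro v ⟨c, hc⟩
    have h1 : (v : ℚ) * X = c * M' := by
      rw [div_eq_iff hMq.ne'] at hc
      exact hc
    have h2 : v * X = c * M' := by exact_mod_cast h1
    exact hcopXM.symm.dvd_of_dvd_mul_right ⟨c, by rw [h2]; ring⟩
  have hcopQu : IsCoprime (u₁ : ℤ) (Q : ℤ) := by
    rw [Nat.isCoprime_iff_coprime, hQ]
    exact Nat.Coprime.pow_right _ ((Nat.Prime.coprime_iff_not_dvd hr).2 hu).symm
  -- `w = b u₁` modulo `Q`
  have hwQ : (Q : ℤ) ∣ w - b * u₁ := by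
    obtain ⟨q, hq⟩ := hp
    refine ⟨z * u₁ - w * q, ?_⟩
    rw [hb]
    linear_combination (-(w : ℤ)) * hq
  have hfin : ∀ ε : ℤ, b = ε → (ε = 1 ∨ ε = -1) → (M' : ℤ) ∣ u₁ - ε * w → False := by
    intro ε hbε hε hM
    have h1 : (Q : ℤ) ∣ u₁ - ε * w := by
      rw [hbε] at hwQ
      rcases hε with rfl | rfl
      · have := (dvd_neg.2 hwQ)
        rwa [show -((w : ℤ) - 1 * u₁) = u₁ - 1 * w by ring] at this
      · rwa [show (w : ℤ) - -1 * u₁ = u₁ - -1 * w by ring] at hwQ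
    have h2 : (Q : ℤ) * M' ∣ u₁ - ε * w := hcopQM.mul_dvd h1 hM
    have h2u' : 2 * (u₁ : ℤ) < Q * M' := by exact_mod_cast h2u
    have h2w' : 2 * (w : ℤ) < Q * M' := by exact_mod_cast h2w
    have h3 : u₁ - ε * (w : ℤ) ≠ 0 := by
      rcases hε with rfl | rfl
      · intro h
        apply hne
        have : (u₁ : ℤ) = w := by linarith
        exact_mod_cast this
      · intro h
        apply hu
        have h5 : (u₁ : ℤ) = 0 := by
          have := Int.natCast_nonneg u₁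
          have := Int.natCast_nonneg w
          linarith
        have h6 : u₁ = 0 := by exact_mod_cast h5
        rw [h6]
        exact dvd_zero r
    have h5 := Int.le_of_dvd (abs_pos.2 h3) ((dvd_abs _ _).2 h2)
    have h6 : |(u₁ : ℤ) - ε * w| < Q * M' := by
      have a1 := Int.natCast_nonneg u₁
      have a2 := Int.natCast_nonneg w
      rw [abs_lt]
      rcases hε with rfl | rfl
      · constructor <;> linarith
      · constructor <;> linarith
    linarith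
  have hQ12 : 12 < Q := by omega
  have hfar : ∀ ε : ℤ, b = ε → (ε = 1 ∨ ε = -1) → False := by
    intro ε hbε hε
    by_cases hint : ∃ c : ℤ, ((u₁ - ε * w : ℤ) : ℚ) * X / M' = c
    · exact hfin ε hbε hε (hdiv _ hint)
    · push Not at hint
      obtain ⟨t', ht', hfar⟩ := Pool.Agent.Helper10.KQ.exists_far hM0
        (γ := ((u₁ - ε * w : ℤ) : ℚ) * X / M') ⟨(u₁ - ε * w) * X, by
          push_cast
          field_simp⟩ hint
      obtain ⟨s, hs1, hs2, hs3⟩ := exists_of_far (r := r) hr.two_le hQ12 (x₀ := t' * (u₁ * X / M'))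
        (y₀ := ε * (t' * (w * X / M'))) h4 h8Q (by
          intro k
          have h1 := hfar (-k)
          rw [← abs_neg] at h1
          have h2 : -((t' : ℚ) * (((u₁ - ε * w : ℤ) : ℚ) * X / M') - ((-k : ℤ) : ℚ)) =
              ε * (t' * (w * X / M')) - t' * (u₁ * X / M') - k := by
            push_cast
            field_simp
            ring
          rwa [h2] at h1)
      have h1 := (key s t' hs1 ht').1 hs2
      rw [hbε] at h1
      apply hs3
      rcases hε with rfl | rfl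
      · rw [Int.cast_one, one_mul]
        rw [Int.cast_one, mul_one] at h1
        exact h1
      · rw [← InW_neg] at h1
        have h2 : -((s : ℚ) * ((-1 : ℤ) : ℚ) / Q + t' * (w * X / M')) =
            s / Q + ((-1 : ℤ) : ℚ) * (t' * (w * X / M')) := by
          push_cast
          ring
        rwa [h2] at h1
  have hb1 : b = 1 ∨ b = -1 := by
    have := abs_le.1 hc2
    omega
  exact hfar b rfl hb1

/-- **The window for the asymmetry**, normalised form. -/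
theorem asym_core {r j M' u₁ A : ℕ} (hr : r.Prime) (hj : 0 < j) (hM' : ¬ r ∣ M') (hM0 : 0 < M')
    (hu : ¬ r ∣ u₁) (hA : 0 < A) (hrA : 4 * A < r) (δ : ℚ) :
    ∃ t : ℕ, ¬ r ∣ t ∧ t.Coprime M' ∧ ∃ z : ℤ, δ < (t : ℚ) * u₁ / ((r ^ j : ℕ) * M') + z ∧
      (t : ℚ) * u₁ / ((r ^ j : ℕ) * M') + z < δ + 1 / A := by
  obtain ⟨X, p, hX, hp, hcrt⟩ := exists_crt hr hj hM' hM0 hu
  set Q : ℕ := r ^ j with hQ
  have hQ0 : 0 < Q := pow_pos hr.pos j
  have hAq : (0 : ℚ) < A := by exact_mod_cast hA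
  have hQq : (0 : ℚ) < Q := by exact_mod_cast hQ0
  have hMq : (0 : ℚ) < M' := by exact_mod_cast hM0
  have hrQ : r ≤ Q := by
    rw [hQ]
    exact Nat.le_self_pow hj.ne' r
  have hQA : (4 : ℚ) * A < Q := by exact_mod_cast hrA.trans_le hrQ
  set x₀ : ℚ := (1 : ℕ) * (u₁ * X / M') with hx₀
  obtain ⟨s, hs1, hs2, hs3⟩ := exists_unit_btw (r := r) hr.two_le (x := Q * (δ - x₀))
    (y := Q * (δ + 1 / A - x₀)) (by
      have h1 : (Q : ℚ) * (δ + 1 / A - x₀) - Q * (δ - x₀) = Q / A := by ring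
      rw [h1, lt_div_iff₀ hAq]
      linarith)
  obtain ⟨t, ht1, ht2, ht3⟩ := hcrt s 1 hs3 (Nat.coprime_one_left M')
  obtain ⟨z₁, hz₁⟩ := ht3 u₁
  obtain ⟨q, hq⟩ := hp
  have e1 : (p : ℚ) * u₁ = 1 + Q * q := by
    have : ((p * u₁ - 1 : ℤ) : ℚ) = ((Q * q : ℤ) : ℚ) := by rw [hq]
    push_cast at this
    linarith
  have h2 : (t : ℚ) * u₁ / (Q * M') = s / Q + x₀ + (s * q + z₁ : ℤ) := by
    have := hz₁
    push_cast at this ⊢
    rw [this, hx₀, e1]
    push_cast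
    field_simp
    ring
  refine ⟨t, ht1, ht2, -(s * q + z₁), ?_, ?_⟩
  · rw [h2]
    have h3 : δ - x₀ < s / Q := by
      rw [lt_div_iff₀ hQq]
      linarith
    push_cast
    linarith
  · rw [h2]
    have h3 : (s : ℚ) / Q < δ + 1 / A - x₀ := by
      rw [div_lt_iff₀ hQq]
      linarith
    push_cast
    linarith

end Pool.Agent.Helper21.KQ
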