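import Pool.Agent.Helper21.KQ.Crt
import Pool.Agent.Helper67.KQ.Num
import Pool.Agent.Helper79.KQ.Defs

/-!
# The numbers of cyclic covers (project KQ, block Q1)
-/

set_option autoImplicit false

open Pool.Agent.Helper79.KN

namespace Pool.Agent.Helper21.KQ

theorem InW_mod {δ : ℚ} {M x : ℕ} (hM : 0 < M) : InW δ (((x % M : ℕ) : ℚ) / M) ↔ InW δ ((x : ℚ) / M) := by
  have hMq : (M : ℚ) ≠ 0 := by exact_mod_cast hM.ne'
  refine InW_congr (-((x / M : ℕ) : ℤ)) ?_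
  have h1 : ((M * (x / M) + x % M : ℕ) : ℚ) = x := by rw [Nat.div_add_mod]
  rw [Nat.cast_add, Nat.cast_mul] at h1
  rw [Int.cast_neg, Int.cast_natCast]
  generalize ((x / M : ℕ) : ℚ) = q at *
  generalize ((x % M : ℕ) : ℚ) = e at *
  rw [← h1]
  field_simp
  ring

/-- The `r`-parts. -/
theorem exists_parts {M u r : ℕ} (hr : r.Prime) (hM : 0 < M) (hu : 0 < u) (hd : r ∣ M / Nat.gcd u M) :
    ∃ J M' v u₁, M = r ^ J * M' ∧ ¬ r ∣ M' ∧ u = r ^ v * u₁ ∧ ¬ r ∣ u₁ ∧ v < J := by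
  obtain ⟨J, M', hM', rfl⟩ := Nat.exists_eq_pow_mul_and_not_dvd hM.ne' r hr.ne_one
  obtain ⟨v, u₁, hu₁, rfl⟩ := Nat.exists_eq_pow_mul_and_not_dvd hu.ne' r hr.ne_one
  refine ⟨J, M', v, u₁, rfl, hM', rfl, hu₁, ?_⟩
  by_contra h
  have hrJ : 0 < r ^ J := pow_pos hr.pos J
  have h1 : r ^ J ∣ Nat.gcd (r ^ v * u₁) (r ^ J * M') :=
    Nat.dvd_gcd ((pow_dvd_pow r (not_lt.1 h)).mul_right u₁) (dvd_mul_right _ _)
  obtain ⟨g, hg⟩ := h1
  have h2 : Nat.gcd (r ^ v * u₁) (r ^ J * M') * (r ^ J * M' / Nat.gcd (r ^ v * u₁) (r ^ J * M')) = r ^ J * M' :=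
    Nat.mul_div_cancel' (Nat.gcd_dvd_right _ _)
  set q := r ^ J * M' / Nat.gcd (r ^ v * u₁) (r ^ J * M') with hq
  rw [hg, mul_assoc] at h2
  have h3 := Nat.eq_of_mul_eq_mul_left hrJ h2
  exact hM' (h3 ▸ hd.mul_left g)

theorem coprime_of {t r J M' : ℕ} (hr : r.Prime) (h1 : ¬ r ∣ t) (h2 : t.Coprime M') : t.Coprime (r ^ J * M') :=
  Nat.Coprime.mul_right (Nat.Coprime.pow_right J ((Nat.Prime.coprime_iff_not_dvd hr).2 h1).symm) h2

theorem win_sep {A M u u' r : ℕ} (hA : 0 < A) {δ : ℚ} (hδA : 1 / (A : ℚ) ≤ δ) (h4 : 4 * δ ≤ 1)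
    (hr : r.Prime) (hrA : 4 * A < r) (hd : r ∣ M / Nat.gcd u M) (hu : 0 < u) (hu' : 0 < u') (h2u : 2 * u < M)
    (h2u' : 2 * u' < M) (hne : u ≠ u') :
    ∃ t : ℕ, t.Coprime M ∧ ¬ (InW δ (((t * u % M : ℕ) : ℚ) / M) ↔ InW δ (((t * u' % M : ℕ) : ℚ) / M)) := by
  have hM : 0 < M := by omega
  obtain ⟨J, M', v, u₁, rfl, hM', rfl, hu₁, hv⟩ := exists_parts hr hM hu hd
  obtain ⟨v', w₁, hw₁, rfl⟩ := Nat.exists_eq_pow_mul_and_not_dvd hu'.ne' r hr.ne_one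
  have hM0 : 0 < M' := Nat.pos_of_ne_zero fun h => hM' (h ▸ dvd_zero r)
  have hrp : ∀ k, 0 < r ^ k := fun k => pow_pos hr.pos k
  have hM0q : (M' : ℚ) ≠ 0 := by exact_mod_cast hM0.ne'
  have hrq : (r : ℚ) ≠ 0 := by exact_mod_cast hr.ne_zero
  -- fractions
  have frac : ∀ (t k j x : ℕ), J = k + j → ((t * (r ^ k * x) : ℕ) : ℚ) / ((r ^ J * M' : ℕ) : ℚ) =
      (t : ℚ) * x / ((r ^ j : ℕ) * M') := by
    intro t k j x h
    rw [h]
    push_cast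
    rw [pow_add]
    field_simp
  rcases le_or_gt v v' with h | h
  · obtain ⟨d, rfl⟩ := Nat.exists_eq_add_of_le h
    obtain ⟨j, rfl⟩ := Nat.exists_eq_add_of_le hv.le
    have e1 : r ^ (v + d) * w₁ = r ^ v * (r ^ d * w₁) := by rw [pow_add, mul_assoc]
    rw [e1] at h2u' hne hu' ⊢
    rw [pow_add, mul_assoc] at h2u h2u'
    obtain ⟨t, ht1, ht2, ht3⟩ := sep_core (w := r ^ d * w₁) hr (by omega : 0 < j) hM' hM0 hu₁ hA hrA hδA h4
      (by
        have : r ^ v * (2 * u₁) < r ^ v * (r ^ j * M') := by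
          calc r ^ v * (2 * u₁) = 2 * (r ^ v * u₁) := by ring
            _ < _ := h2u
        exact Nat.lt_of_mul_lt_mul_left this)
      (by
        have : r ^ v * (2 * (r ^ d * w₁)) < r ^ v * (r ^ j * M') := by
          calc r ^ v * (2 * (r ^ d * w₁)) = 2 * (r ^ v * (r ^ d * w₁)) := by ring
            _ < _ := h2u'
        exact Nat.lt_of_mul_lt_mul_left this)
      (fun h => hne (by rw [h]))
    refine ⟨t, coprime_of hr ht1 ht2, ?_⟩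
    rw [InW_mod hM, InW_mod hM, frac t v j u₁ rfl, frac t v j (r ^ d * w₁) rfl]
    exact ht3
  · obtain ⟨d, rfl⟩ := Nat.exists_eq_add_of_lt h
    obtain ⟨j, rfl⟩ := Nat.exists_eq_add_of_le (h.trans hv).le
    have e1 : r ^ (v' + d + 1) * u₁ = r ^ v' * (r ^ (d + 1) * u₁) := by rw [add_assoc, pow_add, mul_assoc]
    rw [e1] at h2u hne hu ⊢
    have e2 : r ^ (v' + j) * M' = r ^ v' * (r ^ j * M') := by rw [pow_add, mul_assoc]
    rw [e2] at h2u h2u'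
    obtain ⟨t, ht1, ht2, ht3⟩ := sep_core (w := r ^ (d + 1) * u₁) hr (by omega : 0 < j) hM' hM0 hw₁ hA hrA hδA h4
      (by
        have : r ^ v' * (2 * w₁) < r ^ v' * (r ^ j * M') := by
          calc r ^ v' * (2 * w₁) = 2 * (r ^ v' * w₁) := by ring
            _ < _ := h2u'
        exact Nat.lt_of_mul_lt_mul_left this)
      (by
        have : r ^ v' * (2 * (r ^ (d + 1) * u₁)) < r ^ v' * (r ^ j * M') := by
          calc r ^ v' * (2 * (r ^ (d + 1) * u₁)) = 2 * (r ^ v' * (r ^ (d + 1) * u₁)) := by ring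
            _ < _ := h2u
        exact Nat.lt_of_mul_lt_mul_left this)
      (fun h => hne (by rw [h]))
    refine ⟨t, coprime_of hr ht1 ht2, ?_⟩
    rw [InW_mod hM, InW_mod hM, frac t v' j w₁ rfl, frac t v' j (r ^ (d + 1) * u₁) rfl]
    exact fun h => ht3 h.symm

theorem win_asym {A M u r : ℕ} (hA : 0 < A) {δ : ℚ} (hδA : 1 / (A : ℚ) ≤ δ) (h4 : 4 * δ ≤ 1)
    (hr : r.Prime) (hrA : 4 * A < r) (hd : r ∣ M / Nat.gcd u M) (hu : 0 < u) (hM : 0 < M) :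
    ∃ t : ℕ, t.Coprime M ∧ δ ≤ ((t * u % M : ℕ) : ℚ) / M ∧ ((t * u % M : ℕ) : ℚ) / M < δ + 1 / A := by
  have hAq : (0 : ℚ) < 1 / (A : ℚ) := by
    have : (0 : ℚ) < A := by exact_mod_cast hA
    positivity
  obtain ⟨J, M', v, u₁, rfl, hM', rfl, hu₁, hv⟩ := exists_parts hr hM hu hd
  obtain ⟨j, rfl⟩ := Nat.exists_eq_add_of_le hv.le
  have hM0 : 0 < M' := Nat.pos_of_ne_zero fun h => hM' (h ▸ dvd_zero r)
  have hM0q : (M' : ℚ) ≠ 0 := by exact_mod_cast hM0.ne'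
  have hrq : (r : ℚ) ≠ 0 := by exact_mod_cast hr.ne_zero
  obtain ⟨t, ht1, ht2, z, hz1, hz2⟩ := asym_core hr (by omega : 0 < j) hM' hM0 hu₁ hA hrA δ
  refine ⟨t, coprime_of hr ht1 ht2, ?_⟩
  set M := r ^ (v + j) * M' with hMd
  have hMq : (0 : ℚ) < M := by exact_mod_cast hM
  have e1 : (t : ℚ) * u₁ / ((r ^ j : ℕ) * M') = ((t * (r ^ v * u₁) : ℕ) : ℚ) / M := by
    rw [hMd]
    push_cast
    rw [pow_add]
    field_simp
  rw [e1] at hz1 hz2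
  have e2 : ((t * (r ^ v * u₁) : ℕ) : ℚ) / M =
      ((t * (r ^ v * u₁) % M : ℕ) : ℚ) / M + ((t * (r ^ v * u₁) / M : ℕ) : ℚ) := by
    have h1 : ((M * (t * (r ^ v * u₁) / M) + t * (r ^ v * u₁) % M : ℕ) : ℚ) = (t * (r ^ v * u₁) : ℕ) := by
      rw [Nat.div_add_mod]
    rw [← h1]
    push_cast
    field_simp
    ring
  rw [e2] at hz1 hz2
  have h5 : 0 ≤ ((t * (r ^ v * u₁) % M : ℕ) : ℚ) / M := by positivity
  have h6 : ((t * (r ^ v * u₁) % M : ℕ) : ℚ) / M < 1 := by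
    rw [div_lt_one hMq]
    exact_mod_cast Nat.mod_lt _ hM
  set f := ((t * (r ^ v * u₁) % M : ℕ) : ℚ) / M with hf
  set c : ℤ := ((t * (r ^ v * u₁) / M : ℕ) : ℤ) + z with hc
  have hcq : (c : ℚ) = ((t * (r ^ v * u₁) / M : ℕ) : ℚ) + z := by rw [hc, Int.cast_add, Int.cast_natCast]
  have h7 : δ < f + c := by rw [hcq]; linarith
  have h8 : f + c < δ + 1 / A := by rw [hcq]; linarith
  have h9 : c = 0 := by
    have a1 : (c : ℚ) < 1 := by linarith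
    have a2 : (-1 : ℚ) < c := by linarith
    have a3 : c < 1 := by exact_mod_cast a1
    have a4 : -1 < c := by exact_mod_cast a2
    omega
  rw [h9, Int.cast_zero, add_zero] at h7 h8
  exact ⟨h7.le, h8⟩

theorem win_ne {A M u r t : ℕ} (hA : 0 < A) {δ : ℚ} (hδ : ∃ z : ℤ, (A : ℚ) * δ = z)
    (hrA : 4 * A < r) (hd : r ∣ M / Nat.gcd u M) (hM : 0 < M) (ht : t.Coprime M) :
    ((t * u % M : ℕ) : ℚ) / M ≠ 1 - δ := by
  intro h
  obtain ⟨z, hz⟩ := hδ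
  have hMq : (M : ℚ) ≠ 0 := by exact_mod_cast hM.ne'
  have h1 : ((A * (t * u % M) : ℕ) : ℚ) = ((A - z) * M : ℤ) := by
    rw [div_eq_iff hMq] at h
    push_cast
    rw [h, ← hz]
    ring
  have h2 : ((A * (t * u % M) : ℕ) : ℤ) = (A - z) * M := by
    rw [← Int.cast_natCast] at h1
    exact Int.cast_injective h1
  have h3 : M ∣ A * (t * u % M) := by
    have : (M : ℤ) ∣ ((A * (t * u % M) : ℕ) : ℤ) := ⟨A - z, by rw [h2]; ring⟩
    exact_mod_cast this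
  have h4 : M ∣ A * (t * u) := by
    have h5 : A * (t * u) = M * (A * (t * u / M)) + A * (t * u % M) := by
      conv_lhs => rw [← Nat.div_add_mod (t * u) M]
      ring
    rw [h5]
    exact dvd_add (dvd_mul_right _ _) h3
  have h5 : M ∣ A * u := by
    have h6 : M ∣ t * (A * u) := by
      rw [show t * (A * u) = A * (t * u) by ring]
      exact h4
    exact ht.symm.dvd_of_dvd_mul_left h6
  -- `M / gcd` divides `A`
  have hg : 0 < Nat.gcd u M := Nat.gcd_pos_of_pos_right u hM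
  have h6 : M / Nat.gcd u M ∣ A := by
    have h7 : (M / Nat.gcd u M).Coprime (u / Nat.gcd u M) := (Nat.coprime_div_gcd_div_gcd hg).symm
    have h8 : M / Nat.gcd u M ∣ A * (u / Nat.gcd u M) := by
      have h9 : Nat.gcd u M * (M / Nat.gcd u M) ∣ Nat.gcd u M * (A * (u / Nat.gcd u M)) := by
        rw [Nat.mul_div_cancel' (Nat.gcd_dvd_right u M)]
        rw [show Nat.gcd u M * (A * (u / Nat.gcd u M)) = A * (Nat.gcd u M * (u / Nat.gcd u M)) by ring,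
          Nat.mul_div_cancel' (Nat.gcd_dvd_left u M)]
        exact h5
      exact Nat.dvd_of_mul_dvd_mul_left hg h9
    exact h7.dvd_of_dvd_mul_right h8
  have h7 := Nat.le_of_dvd hA (hd.trans h6)
  omega

/-- **Q1** -/
theorem isSep_cyclic {X T n : Type} [Fintype n] {h : T → X → ℤ → ℕ} (hh : Pool.Agent.Helper79.KQ.IsCyclic n h) :
    IsSep h := by
  obtain ⟨y, A, M, c, u, hy, hinj, hu, hc, hnum⟩ := hh
  obtain ⟨δ, h4, hle, hex, hcard⟩ := hy.least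
  have hA := hy.pos
  have hAq : (0 : ℚ) < A := by exact_mod_cast hA
  -- `δ` is a multiple of `1 / A`
  obtain ⟨i₀, hi₀⟩ := hex
  obtain ⟨z₀, hz₀⟩ := hy.den i₀
  have hδz : (A : ℚ) * δ = ((z₀ - A * ⌊y i₀⌋ : ℤ) : ℚ) := by
    rw [← hi₀, Int.fract, mul_sub, hz₀]
    push_cast
    ring
  have hδ0 : 0 < δ := by
    rw [← hi₀]
    refine lt_of_le_of_ne (Int.fract_nonneg _) fun h0 => ?_
    exact hy.nonint i₀ ⌊y i₀⌋ (by
      have := Int.self_sub_floor (y i₀)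
      linarith)
  have hδA : 1 / (A : ℚ) ≤ δ := by
    rw [div_le_iff₀ hAq, mul_comm, hδz]
    have h1 : (0 : ℚ) < ((z₀ - A * ⌊y i₀⌋ : ℤ) : ℚ) := by
      rw [← hδz]
      positivity
    have h2 : 0 < z₀ - A * ⌊y i₀⌋ := by exact_mod_cast h1
    have h3 : 1 ≤ z₀ - A * ⌊y i₀⌋ := h2
    exact_mod_cast h3
  constructor
  · intro x
    obtain ⟨hx1, hx2, r, hr, hrA, hd⟩ := hu x
    have hM : 0 < M := by omega
    obtain ⟨k, hk, hk1, hk2⟩ := win_asym hA hδA h4 hr hrA hd hx1 hM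
    obtain ⟨t, ht⟩ := hc k hk
    refine ⟨t, fun w => ?_⟩
    obtain ⟨p, hp⟩ := Pool.Agent.Helper67.KQ2.asym_of_win hy h4 hle ⟨i₀, hi₀⟩ hcard (Nat.mod_lt _ hM) hk1 hk2 w
    refine ⟨p, ?_⟩
    rw [hnum, hnum, ht]
    exact hp
  · intro x x' hne
    obtain ⟨hx1, hx2, r, hr, hrA, hd⟩ := hu x
    obtain ⟨hx1', hx2', r', hr', hrA', hd'⟩ := hu x'
    have hM : 0 < M := by omega
    obtain ⟨k, hk, hk1⟩ := win_sep hA hδA h4 hr hrA hd hx1 hx1' hx2 hx2' fun h => hne (hinj h)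
    obtain ⟨t, ht⟩ := hc k hk
    refine ⟨t, fun w => ?_⟩
    obtain ⟨⟨p, hp⟩, p', hp'⟩ := Pool.Agent.Helper67.KQ2.sep_of_win hy h4 hle ⟨i₀, hi₀⟩
      (Nat.mod_lt (k * u x) hM) (Nat.mod_lt (k * u x') hM)
      (win_ne hA ⟨_, hδz⟩ hrA hd hM hk) (win_ne hA ⟨_, hδz⟩ hrA' hd' hM hk) hk1 w
    refine ⟨⟨p, ?_⟩, p', ?_⟩
    · rw [hnum, hnum, ht]
      exact hp
    · rw [hnum, hnum, ht]
      exact hp'

end Pool.Agent.Helper21.KQ
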