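import Pool.Agent.Helper79.KQ.Defs
import Pool.Agent.Helper35.KN.Sep

/-!
# The numbers of `w ^ M = f(x₁, …, x_m)` for pairwise coprime exponents (project K4)
-/

set_option autoImplicit false

open Pool.Agent.Helper79.KN Pool.Agent.Helper35.KN

namespace Pool.Agent.Helper21.KQ

variable {m : ℕ} {a : Fin m → ℕ}

/-- The Hodge numbers of the eigenspace for the character `u` of the group of the `M`-th roots of unity after the embedding
`t` of the coefficients: `q` is the second index. -/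
def hodgeM (a : Fin m → ℕ) (M : ℕ) (t : {t : ℕ // Nat.Coprime t M}) (u : {u : ℕ // 0 < u ∧ 2 * u < M}) (q : ℤ) : ℕ :=
  ((Fintype.piFinset fun k => Finset.Ioo 0 (a k)).filter fun i =>
    ⌊∑ k, (i k : ℚ) / a k + ((t.1 * u.1 % M : ℕ) : ℚ) / (M : ℕ)⌋ = q).card

/-- the spectrum -/
def ys (a : Fin m → ℕ) (i : ↥(Fintype.piFinset fun k => Finset.Ioo 0 (a k))) : ℚ := ∑ k, (i.1 k : ℚ) / a k

theorem ys_fract (ha : ∀ k, 1 < a k) (i : ↥(Fintype.piFinset fun k => Finset.Ioo 0 (a k))) :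
    Int.fract (ys a i) = ((b a i.1 % ((∏ k, a k : ℕ) : ℤ) : ℤ) : ℚ) / ((∏ k, a k : ℕ) : ℚ) := by
  rw [ys, x_eq ha, A_cast, Int.cast_natCast]
  exact Int.fract_div_intCast_eq_div_intCast_mod

theorem prod_lt (hm : 0 < m) (ha : ∀ k, 1 < a k) : ∏ k, (a k - 1) < ∏ k, a k := by
  have : Nonempty (Fin m) := ⟨⟨0, hm⟩⟩
  exact Finset.prod_lt_prod_of_nonempty (fun k _ => by have := ha k; omega) (fun k _ => by have := ha k; omega)
    Finset.univ_nonempty

theorem isSpectrum_ys (hm : 0 < m) (hco : ∀ k l, k ≠ l → Nat.Coprime (a k) (a l)) (ha : ∀ k, 1 < a k)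
    (hN : 2 < ∏ k, (a k - 1)) : IsSpectrum (ys a) (∏ k, a k) := by
  have hlt := prod_lt hm ha
  have hA : 0 < ∏ k, a k := by omega
  have hAq : (0 : ℚ) < ((∏ k, a k : ℕ) : ℚ) := by exact_mod_cast hA
  have hmem : ∀ i : ↥(Fintype.piFinset fun k => Finset.Ioo 0 (a k)), i.1 ∈ Idx a := fun i => i.2
  have hpos : ∀ i : ↥(Fintype.piFinset fun k => Finset.Ioo 0 (a k)), 1 ≤ b a i.1 % ((∏ k, a k : ℕ) : ℤ) := by
    intro i
    have h1 := Int.emod_nonneg (b a i.1) (by exact_mod_cast hA.ne' : ((∏ k, a k : ℕ) : ℤ) ≠ 0)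
    have h2 : b a i.1 % ((∏ k, a k : ℕ) : ℤ) ≠ 0 := by
      intro h
      exact b_ne hm hco (hmem i) (by rw [A_cast]; exact Int.dvd_of_emod_eq_zero h)
    omega
  refine ⟨hA, fun i => ⟨b a i.1, ?_⟩, fun i z hz => ?_, ?_, 1 / ((∏ k, a k : ℕ) : ℚ), ?_, fun i => ?_, ?_, ?_⟩
  · rw [ys, x_eq ha, A_cast, Int.cast_natCast, mul_div_cancel₀ _ hAq.ne']
  · have h1 := hpos i
    have h2 := ys_fract ha i
    rw [hz, Int.fract_intCast, eq_comm, div_eq_zero_iff] at h2
    rcases h2 with h2 | h2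
    · have h3 : b a i.1 % ((∏ k, a k : ℕ) : ℤ) = 0 := by exact_mod_cast h2
      omega
    · exact hAq.ne' h2
  · have hr : ∀ i : ↥(Fintype.piFinset fun k => Finset.Ioo 0 (a k)),
        (fun k => a k - i.1 k) ∈ Fintype.piFinset fun k => Finset.Ioo 0 (a k) := by
      intro i
      have h1 := (mem_Idx a).1 (hmem i)
      refine (mem_Idx a).2 fun k => ?_
      have := h1 k
      omega
    refine ⟨⟨fun i => ⟨_, hr i⟩, fun i => ⟨_, hr i⟩, fun i => ?_, fun i => ?_⟩, m, fun i => ?_⟩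
    · have h1 := (mem_Idx a).1 (hmem i)
      apply Subtype.ext
      funext k
      have := h1 k
      show a k - (a k - i.1 k) = i.1 k
      omega
    · have h1 := (mem_Idx a).1 (hmem i)
      apply Subtype.ext
      funext k
      have := h1 k
      show a k - (a k - i.1 k) = i.1 k
      omega
    · have h1 := (mem_Idx a).1 (hmem i)
      show ∑ k, ((a k - i.1 k : ℕ) : ℚ) / a k = ((m : ℤ) : ℚ) - ∑ k, (i.1 k : ℚ) / a k
      rw [eq_sub_iff_add_eq, ← Finset.sum_add_distrib]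
      have h2 : ∀ k ∈ Finset.univ, ((a k - i.1 k : ℕ) : ℚ) / a k + (i.1 k : ℚ) / a k = 1 := by
        intro k _
        have h3 := h1 k
        have h4 : (a k : ℚ) ≠ 0 := by
          have := ha k
          positivity
        rw [Nat.cast_sub h3.2.le, ← add_div, sub_add_cancel, div_self h4]
      rw [Finset.sum_congr rfl h2]
      simp
  · rw [mul_one_div, div_le_one hAq]
    have : 4 ≤ ∏ k, a k := by omega
    exact_mod_cast this
  · rw [ys_fract ha, div_le_div_iff_of_pos_right hAq]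
    exact_mod_cast hpos i
  · obtain ⟨i, hi, h1⟩ := exists_b (g := 1) hco ha (fun k => isCoprime_one_right)
    refine ⟨⟨i, hi⟩, ?_⟩
    rw [ys_fract ha]
    congr 1
    rw [A_cast] at h1
    have h2 : b a i % ((∏ k, a k : ℕ) : ℤ) = 1 % ((∏ k, a k : ℕ) : ℤ) := (Int.modEq_iff_dvd.2 h1).symm
    have h3 : (1 : ℤ) % ((∏ k, a k : ℕ) : ℤ) = 1 := Int.emod_eq_of_lt (by norm_num) (by
      have : 1 < ∏ k, a k := by omega
      exact_mod_cast this)
    show ((b a i % ((∏ k, a k : ℕ) : ℤ) : ℤ) : ℚ) = 1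
    rw [h2, h3, Int.cast_one]
  · have h1 : (Finset.univ.filter fun i => Int.fract (ys a i) = 1 / ((∏ k, a k : ℕ) : ℚ)).card ≤ 1 := by
      rw [Finset.card_le_one]
      intro i hi i' hi'
      rw [Finset.mem_filter, ys_fract ha, div_left_inj' hAq.ne'] at hi hi'
      apply Subtype.ext
      refine b_inj hco (hmem i) (hmem i') ?_
      have h2 : b a i.1 % ((∏ k, a k : ℕ) : ℤ) = 1 := by exact_mod_cast hi.2
      have h3 : b a i'.1 % ((∏ k, a k : ℕ) : ℤ) = 1 := by exact_mod_cast hi'.2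
      rw [A_cast]
      exact Int.ModEq.dvd (by show _ % _ = _ % _; rw [h2, h3])
    have h2 : Fintype.card ↥(Fintype.piFinset fun k => Finset.Ioo 0 (a k)) = ∏ k, (a k - 1) := by
      rw [Fintype.card_coe]
      exact card_Idx a
    rw [h2]
    omega

theorem hodgeM_num (M : ℕ) (t : {t : ℕ // Nat.Coprime t M}) (u : {u : ℕ // 0 < u ∧ 2 * u < M}) (q : ℤ) :
    hodgeM a M t u q = num (ys a) M (t.1 * u.1 % M) q := by
  rw [hodgeM, num]
  have : ((Fintype.piFinset fun k => Finset.Ioo 0 (a k)).filter fun i =>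
      ⌊∑ k, (i k : ℚ) / a k + ((t.1 * u.1 % M : ℕ) : ℚ) / (M : ℕ)⌋ = q) =
      (Finset.univ.filter fun i => ⌊ys a i + ((t.1 * u.1 % M : ℕ) : ℚ) / M⌋ = q).map
        (Function.Embedding.subtype _) := by
    ext i
    simp only [Finset.mem_filter, Finset.mem_map, Finset.mem_univ, true_and, Function.Embedding.coe_subtype]
    constructor
    · rintro ⟨h1, h2⟩
      exact ⟨⟨i, h1⟩, h2, rfl⟩
    · rintro ⟨i', h1, rfl⟩
      exact ⟨i'.2, h1⟩
  rw [this, Finset.card_map]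

/-- **K4 (ii)** -/
theorem isCyclic_hodge (hm : 0 < m) (hco : ∀ k l, k ≠ l → Nat.Coprime (a k) (a l)) (ha : ∀ k, 1 < a k)
    (hN : 2 < ∏ k, (a k - 1)) {M : ℕ} (hM : ∀ r : ℕ, r.Prime → r ∣ M → 4 * ∏ k, a k < r) :
    Pool.Agent.Helper79.KQ.IsCyclic ↥(Fintype.piFinset fun k => Finset.Ioo 0 (a k)) (hodgeM a M) := by
  refine ⟨ys a, ∏ k, a k, M, fun t => t.1, fun u => u.1, isSpectrum_ys hm hco ha hN, Subtype.val_injective, fun x => ?_,
    fun k hk => ⟨⟨k, hk⟩, rfl⟩, fun t x q => hodgeM_num M t x q⟩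
  obtain ⟨u, hu1, hu2⟩ := x
  refine ⟨hu1, hu2, ?_⟩
  have hM0 : 0 < M := by omega
  have h1 : M / Nat.gcd u M ≠ 1 := by
    intro h
    have h2 := Nat.mul_div_cancel' (Nat.gcd_dvd_right u M)
    rw [h, mul_one] at h2
    have h3 := Nat.le_of_dvd hu1 (Nat.gcd_dvd_left u M)
    omega
  obtain ⟨r, hr, hd⟩ := Nat.exists_prime_and_dvd h1
  exact ⟨r, hr, hM r hr (hd.trans (Nat.div_dvd_of_dvd (Nat.gcd_dvd_right u M))), hd⟩

end Pool.Agent.Helper21.KQ
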