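import Mathlib

/-!
# Windows and units modulo a prime power (project KQ, block Q1)
-/

set_option autoImplicit false

namespace Pool.Agent.Helper21.KQ

/-- The distance to the integers is less than `δ`. -/
def InW (δ x : ℚ) : Prop := ∃ k : ℤ, |x - k| < δ

theorem InW_add_int (δ x : ℚ) (z : ℤ) : InW δ (x + z) ↔ InW δ x := by
  constructor
  · rintro ⟨k, hk⟩
    refine ⟨k - z, ?_⟩
    rw [show x - ((k - z : ℤ) : ℚ) = x + z - k by push_cast; ring]
    exact hk
  · rintro ⟨k, hk⟩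
    refine ⟨k + z, ?_⟩
    rw [show x + z - ((k + z : ℤ) : ℚ) = x - k by push_cast; ring]
    exact hk

theorem InW_congr {δ x y : ℚ} (z : ℤ) (h : x = y + z) : InW δ x ↔ InW δ y := by
  rw [h]
  exact InW_add_int δ y z

theorem InW_neg (δ x : ℚ) : InW δ (-x) ↔ InW δ x := by
  constructor
  · rintro ⟨k, hk⟩
    refine ⟨-k, ?_⟩
    rw [show x - ((-k : ℤ) : ℚ) = -(-x - k) by push_cast; ring, abs_neg]
    exact hk
  · rintro ⟨k, hk⟩
    refine ⟨-k, ?_⟩
    rw [show -x - ((-k : ℤ) : ℚ) = -(x - k) by push_cast; ring, abs_neg]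
    exact hk

theorem not_InW {δ x : ℚ} (h1 : δ ≤ x) (h2 : x ≤ 1 - δ) (_ : 0 ≤ δ) : ¬ InW δ x := by
  rintro ⟨k, hk⟩
  rw [abs_lt] at hk
  rcases le_or_gt k 0 with h | h
  · have : (k : ℚ) ≤ 0 := by exact_mod_cast h
    linarith [hk.2]
  · have : (1 : ℚ) ≤ k := by exact_mod_cast h
    linarith [hk.1]

/-- A unit in an interval of length more than two. -/
theorem exists_unit_btw {r : ℕ} (hr : 2 ≤ r) {x y : ℚ} (h : 2 < y - x) :
    ∃ s : ℤ, x < s ∧ s < y ∧ ¬ (r : ℤ) ∣ s := by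
  have h1 := Int.floor_le x
  have h2 := Int.lt_floor_add_one x
  by_cases hd : (r : ℤ) ∣ ⌊x⌋ + 1
  · refine ⟨⌊x⌋ + 2, ?_, ?_, ?_⟩
    · push_cast
      linarith
    · push_cast
      linarith
    · intro h3
      have h4 : (r : ℤ) ∣ 1 := by
        have := dvd_sub h3 hd
        rwa [show ⌊x⌋ + 2 - (⌊x⌋ + 1) = 1 by ring] at this
      have h5 := Int.le_of_dvd one_pos h4
      omega
  · refine ⟨⌊x⌋ + 1, ?_, ?_, hd⟩
    · push_cast
      linarith
    · push_cast
      linarith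

/-- A unit near the left end. -/
theorem exists_unit_left {r : ℕ} (hr : 2 ≤ r) (x : ℚ) : ∃ s : ℤ, x < s ∧ (s : ℚ) ≤ x + 2 ∧ ¬ (r : ℤ) ∣ s := by
  have h1 := Int.floor_le x
  have h2 := Int.lt_floor_add_one x
  by_cases hd : (r : ℤ) ∣ ⌊x⌋ + 1
  · refine ⟨⌊x⌋ + 2, ?_, ?_, ?_⟩
    · push_cast
      linarith
    · push_cast
      linarith
    · intro h3
      have h4 : (r : ℤ) ∣ 1 := by
        have := dvd_sub h3 hd
        rwa [show ⌊x⌋ + 2 - (⌊x⌋ + 1) = 1 by ring] at this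
      have h5 := Int.le_of_dvd one_pos h4
      omega
  · refine ⟨⌊x⌋ + 1, ?_, ?_, hd⟩
    · push_cast
      linarith
    · push_cast
      linarith

/-- A unit near the right end. -/
theorem exists_unit_right {r : ℕ} (hr : 2 ≤ r) (x : ℚ) : ∃ s : ℤ, (s : ℚ) < x ∧ x - 2 ≤ s ∧ ¬ (r : ℤ) ∣ s := by
  obtain ⟨s, h1, h2, h3⟩ := exists_unit_left hr (-x)
  refine ⟨-s, ?_, ?_, fun h => h3 ?_⟩
  · push_cast
    linarith
  · push_cast
    linarith
  · rwa [dvd_neg] at h

/-- **Claim 1**: the multiplier is a unit. -/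
theorem not_dvd_of_iff {r j : ℕ} (hr : r.Prime) (hj : 0 < j) {δ x₀ y₀ : ℚ} (h4 : 4 * δ ≤ 1)
    (hδ : 8 < 2 * (r : ℚ) * δ) {b : ℤ}
    (H : ∀ s : ℤ, ¬ (r : ℤ) ∣ s → (InW δ (s / (r ^ j : ℕ) + x₀) ↔ InW δ (s * b / (r ^ j : ℕ) + y₀))) :
    ¬ (r : ℤ) ∣ b := by
  rintro ⟨b', hb'⟩
  have hr0 : (0 : ℚ) < r := by exact_mod_cast hr.pos
  have hδ0 : 0 < δ := by
    by_contra h
    have : 2 * (r : ℚ) * δ ≤ 0 := mul_nonpos_of_nonneg_of_nonpos (by linarith) (not_lt.1 h)
    linarith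
  obtain ⟨i, rfl⟩ : ∃ i, j = i + 1 := ⟨j - 1, by omega⟩
  have hQ : ((r ^ (i + 1) : ℕ) : ℚ) = (r : ℚ) ^ i * r := by push_cast; ring
  have hri : (0 : ℚ) < (r : ℚ) ^ i := by positivity
  -- the right side is constant
  have hR : ∀ k : ℤ, InW δ (((1 + (r : ℤ) ^ i * k : ℤ) : ℚ) * b / (r ^ (i + 1) : ℕ) + y₀) ↔
      InW δ ((b : ℚ) / (r ^ (i + 1) : ℕ) + y₀) := by
    intro k
    refine InW_congr (k * b') ?_
    rw [hQ, hb']
    push_cast
    field_simp
    ring
  have hL : ∀ k : ℤ, (((1 + (r : ℤ) ^ i * k : ℤ) : ℚ)) / (r ^ (i + 1) : ℕ) + x₀ =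
      k / r + (1 / ((r : ℚ) ^ i * r) + x₀) := by
    intro k
    rw [hQ]
    push_cast
    field_simp
    ring
  -- one of two consecutive is a unit
  have hunit : ∀ k : ℤ, ¬ (r : ℤ) ∣ 1 + (r : ℤ) ^ i * k ∨ ¬ (r : ℤ) ∣ 1 + (r : ℤ) ^ i * (k + 1) := by
    intro k
    by_contra h
    rw [not_or, not_not, not_not] at h
    have h1 := dvd_sub h.2 h.1
    rw [show 1 + (r : ℤ) ^ i * (k + 1) - (1 + (r : ℤ) ^ i * k) = (r : ℤ) ^ i by ring] at h1
    have h2 : (r : ℤ) ∣ 1 := (Int.dvd_add_left (h1.mul_right k)).1 h.1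
    have h3 := Int.le_of_dvd one_pos h2
    have := hr.two_le
    omega
  set c : ℚ := 1 / ((r : ℚ) ^ i * r) + x₀ with hc
  -- a unit in the window
  have hin : ∃ k : ℤ, ¬ (r : ℤ) ∣ 1 + (r : ℤ) ^ i * k ∧ InW δ (k / r + c) := by
    have key : ∀ k : ℤ, -r * c - r * δ < k → k < -r * c + r * δ → InW δ (k / r + c) := by
      intro k h1 h2
      refine ⟨0, ?_⟩
      rw [Int.cast_zero, sub_zero, abs_lt]
      have h3 : (k : ℚ) / r + c = (k + r * c) / r := by field_simp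
      rw [h3, lt_div_iff₀ hr0, div_lt_iff₀ hr0]
      constructor <;> linarith
    have h1 := Int.floor_le (-r * c - r * δ)
    have h2 := Int.lt_floor_add_one (-r * c - r * δ)
    set n := ⌊-r * c - r * δ⌋ with hn
    rcases hunit (n + 1) with h | h
    · exact ⟨n + 1, h, key _ (by push_cast; linarith) (by push_cast; linarith)⟩
    · exact ⟨n + 1 + 1, h, key _ (by push_cast; linarith) (by push_cast; linarith)⟩
  have hout : ∃ k : ℤ, ¬ (r : ℤ) ∣ 1 + (r : ℤ) ^ i * k ∧ ¬ InW δ (k / r + c) := by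
    have key : ∀ k : ℤ, r * (1 / 4 - c) < k → k < r * (3 / 4 - c) → ¬ InW δ (k / r + c) := by
      intro k h1 h2
      have h3 : (k : ℚ) / r + c = (k + r * c) / r := by field_simp
      have h5 : 1 / 4 < (k : ℚ) / r + c := by
        rw [h3, lt_div_iff₀ hr0]
        linarith
      have h6 : (k : ℚ) / r + c < 3 / 4 := by
        rw [h3, div_lt_iff₀ hr0]
        linarith
      exact not_InW (by linarith) (by linarith) hδ0.le
    have h1 := Int.floor_le (r * (1 / 4 - c))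
    have h2 := Int.lt_floor_add_one (r * (1 / 4 - c))
    set n := ⌊r * (1 / 4 - c)⌋ with hn
    have hr16 : (16 : ℚ) < r := by nlinarith
    rcases hunit (n + 1) with h | h
    · exact ⟨n + 1, h, key _ (by push_cast; linarith) (by push_cast; linarith)⟩
    · exact ⟨n + 1 + 1, h, key _ (by push_cast; linarith) (by push_cast; linarith)⟩
  obtain ⟨k, hk, hk'⟩ := hin
  obtain ⟨l, hl, hl'⟩ := hout
  have h1 := H _ hk
  have h2 := H _ hl
  rw [hR, hL] at h1 h2
  exact hl' (h2.2 (h1.1 hk'))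

/-- **Claim 2**: the multiplier is `1` or `-1`. -/
theorem abs_le_one_of_iff {r Q : ℕ} (hr : 3 < r) (hQ : 0 < Q) {δ x₀ y₀ : ℚ} (h4 : 4 * δ ≤ 1)
    (hδ : 8 < 2 * (Q : ℚ) * δ) {b : ℤ} (hb : 2 * |b| < Q)
    (H : ∀ s : ℤ, ¬ (r : ℤ) ∣ s → (InW δ (s / Q + x₀) ↔ InW δ (s * b / Q + y₀))) : |b| ≤ 1 := by
  have hQ0 : (0 : ℚ) < Q := by exact_mod_cast hQ
  -- the lifts
  have hψ : ∀ s : ℤ, ∃ z : ℤ, ¬ (r : ℤ) ∣ s → |(s : ℚ) + Q * x₀| < δ * Q →
      |(z : ℚ) + Q * y₀| < δ * Q ∧ (Q : ℤ) ∣ z - b * s := by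
    intro s
    by_cases h : ¬ (r : ℤ) ∣ s ∧ |(s : ℚ) + Q * x₀| < δ * Q
    · obtain ⟨h1, h2⟩ := h
      have h3 : InW δ (s / Q + x₀) := by
        refine ⟨0, ?_⟩
        rw [Int.cast_zero, sub_zero, show (s : ℚ) / Q + x₀ = (s + Q * x₀) / Q by field_simp, abs_div,
          abs_of_pos hQ0, div_lt_iff₀ hQ0]
        exact h2
      obtain ⟨k, hk⟩ := (H s h1).1 h3
      refine ⟨s * b - k * Q, fun _ _ => ⟨?_, ?_⟩⟩
      · rw [show (s : ℚ) * b / Q + y₀ - k = (((s * b - k * Q : ℤ) : ℚ) + Q * y₀) / Q by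
          push_cast; field_simp; ring, abs_div, abs_of_pos hQ0, div_lt_iff₀ hQ0] at hk
        exact hk
      · exact ⟨-k, by ring⟩
    · exact ⟨0, fun h1 h2 => absurd ⟨h1, h2⟩ h⟩
  choose ψ hψ using hψ
  let Good : ℤ → Prop := fun s => ¬ (r : ℤ) ∣ s ∧ |(s : ℚ) + Q * x₀| < δ * Q
  have hstep : ∀ s s' : ℤ, Good s → Good s' → 2 * |b * (s' - s)| < Q → ψ s' - ψ s = b * (s' - s) := by
    intro s s' hs hs' h
    obtain ⟨h1, h2⟩ := hψ s hs.1 hs.2
    obtain ⟨h1', h2'⟩ := hψ s' hs'.1 hs'.2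
    have h3 : (Q : ℤ) ∣ (ψ s' - ψ s) - b * (s' - s) := by
      have := dvd_sub h2' h2
      rwa [show ψ s' - b * s' - (ψ s - b * s) = (ψ s' - ψ s) - b * (s' - s) by ring] at this
    have h5 : 2 * |((ψ s' - ψ s : ℤ) : ℚ)| < Q := by
      have h6 : ((ψ s' - ψ s : ℤ) : ℚ) = ((ψ s' : ℚ) + Q * y₀) - ((ψ s : ℚ) + Q * y₀) := by
        push_cast; ring
      rw [h6]
      have h7 := abs_sub ((ψ s' : ℚ) + Q * y₀) ((ψ s : ℚ) + Q * y₀)
      have h8 : 4 * (δ * Q) ≤ Q := by nlinarith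
      linarith
    have h6 : 2 * |ψ s' - ψ s| < (Q : ℤ) := by exact_mod_cast h5
    have h7 : |(ψ s' - ψ s) - b * (s' - s)| < (Q : ℤ) := by
      have := abs_sub (ψ s' - ψ s) (b * (s' - s))
      omega
    have h8 := Int.eq_zero_of_abs_lt_dvd h3 h7
    linarith
  have hdiff : ∀ s s' : ℤ, Good s → Good s' → |((ψ s' - ψ s : ℤ) : ℚ)| < 2 * δ * Q := by
    intro s s' hs hs'
    obtain ⟨h1, -⟩ := hψ s hs.1 hs.2
    obtain ⟨h1', -⟩ := hψ s' hs'.1 hs'.2
    have h6 : ((ψ s' - ψ s : ℤ) : ℚ) = ((ψ s' : ℚ) + Q * y₀) - ((ψ s : ℚ) + Q * y₀) := by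
      push_cast; ring
    rw [h6]
    have h7 := abs_sub ((ψ s' : ℚ) + Q * y₀) ((ψ s : ℚ) + Q * y₀)
    linarith
  -- three units in a row
  obtain ⟨s, hs0, hs1, hs2⟩ : ∃ s, Good s ∧ Good (s + 1) ∧ Good (s + 2) := by
    have h1 := Int.floor_le (-Q * x₀ - δ * Q)
    have h2 := Int.lt_floor_add_one (-Q * x₀ - δ * Q)
    set n := ⌊-Q * x₀ - δ * Q⌋ with hn
    have hI : ∀ c : ℤ, 1 ≤ c → c ≤ 8 → |((n + c : ℤ) : ℚ) + Q * x₀| < δ * Q := by
      intro c hc1 hc2
      have hc1' : (1 : ℚ) ≤ c := by exact_mod_cast hc1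
      have hc2' : (c : ℚ) ≤ 8 := by exact_mod_cast hc2
      rw [abs_lt]
      push_cast
      constructor <;> linarith
    have hnd : ∀ (m c : ℤ), (r : ℤ) ∣ m → 1 ≤ c → c ≤ 3 → ¬ (r : ℤ) ∣ m + c := by
      intro m c hm hc1 hc2 h
      have h3 : (r : ℤ) ∣ c := (Int.dvd_add_right hm).1 h
      have h4 := Int.le_of_dvd (by omega) h3
      omega
    by_cases d1 : (r : ℤ) ∣ n + 1
    · refine ⟨n + 2, ⟨?_, hI 2 (by norm_num) (by norm_num)⟩, ⟨?_, ?_⟩, ⟨?_, ?_⟩⟩
      · have := hnd _ 1 d1 (by norm_num) (by norm_num)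
        rwa [show n + 1 + 1 = n + 2 by ring] at this
      · have := hnd _ 2 d1 (by norm_num) (by norm_num)
        rwa [show n + 1 + 2 = n + 2 + 1 by ring] at this
      · have := hI 3 (by norm_num) (by norm_num)
        rwa [show n + 3 = n + 2 + 1 by ring] at this
      · have := hnd _ 3 d1 (by norm_num) (by norm_num)
        rwa [show n + 1 + 3 = n + 2 + 2 by ring] at this
      · have := hI 4 (by norm_num) (by norm_num)
        rwa [show n + 4 = n + 2 + 2 by ring] at this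
    by_cases d2 : (r : ℤ) ∣ n + 2
    · refine ⟨n + 3, ⟨?_, hI 3 (by norm_num) (by norm_num)⟩, ⟨?_, ?_⟩, ⟨?_, ?_⟩⟩
      · have := hnd _ 1 d2 (by norm_num) (by norm_num)
        rwa [show n + 2 + 1 = n + 3 by ring] at this
      · have := hnd _ 2 d2 (by norm_num) (by norm_num)
        rwa [show n + 2 + 2 = n + 3 + 1 by ring] at this
      · have := hI 4 (by norm_num) (by norm_num)
        rwa [show n + 4 = n + 3 + 1 by ring] at this
      · have := hnd _ 3 d2 (by norm_num) (by norm_num)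
        rwa [show n + 2 + 3 = n + 3 + 2 by ring] at this
      · have := hI 5 (by norm_num) (by norm_num)
        rwa [show n + 5 = n + 3 + 2 by ring] at this
    by_cases d3 : (r : ℤ) ∣ n + 3
    · refine ⟨n + 4, ⟨?_, hI 4 (by norm_num) (by norm_num)⟩, ⟨?_, ?_⟩, ⟨?_, ?_⟩⟩
      · have := hnd _ 1 d3 (by norm_num) (by norm_num)
        rwa [show n + 3 + 1 = n + 4 by ring] at this
      · have := hnd _ 2 d3 (by norm_num) (by norm_num)
        rwa [show n + 3 + 2 = n + 4 + 1 by ring] at this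
      · have := hI 5 (by norm_num) (by norm_num)
        rwa [show n + 5 = n + 4 + 1 by ring] at this
      · have := hnd _ 3 d3 (by norm_num) (by norm_num)
        rwa [show n + 3 + 3 = n + 4 + 2 by ring] at this
      · have := hI 6 (by norm_num) (by norm_num)
        rwa [show n + 6 = n + 4 + 2 by ring] at this
    refine ⟨n + 1, ⟨d1, hI 1 (by norm_num) (by norm_num)⟩, ⟨?_, ?_⟩, ⟨?_, ?_⟩⟩
    · rwa [show n + 1 + 1 = n + 2 by ring]
    · have := hI 2 (by norm_num) (by norm_num)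
      rwa [show n + 2 = n + 1 + 1 by ring] at this
    · rwa [show n + 1 + 2 = n + 3 by ring]
    · have := hI 3 (by norm_num) (by norm_num)
      rwa [show n + 3 = n + 1 + 2 by ring] at this
  have hb4 : 4 * |b| < Q := by
    have e1 := hstep s (s + 1) hs0 hs1 (by rw [show b * (s + 1 - s) = b by ring]; exact hb)
    have e2 := hstep (s + 1) (s + 2) hs1 hs2 (by rw [show b * (s + 2 - (s + 1)) = b by ring]; exact hb)
    have e3 : ψ (s + 2) - ψ s = 2 * b := by linarith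
    have e4 := hdiff s (s + 2) hs0 hs2
    rw [e3] at e4
    have e5 : 2 * |(b : ℚ)| < 2 * δ * Q := by
      have : |((2 * b : ℤ) : ℚ)| = 2 * |(b : ℚ)| := by
        push_cast
        rw [abs_mul, abs_of_pos (by norm_num : (0 : ℚ) < 2)]
      rw [← this]
      exact e4
    have e6 : 4 * |(b : ℚ)| < Q := by nlinarith
    exact_mod_cast e6
  -- linearity
  have hlin : ∀ (d : ℕ) (s : ℤ), Good s → Good (s + d) → ψ (s + d) - ψ s = b * d := by
    intro d
    induction d using Nat.strong_induction_on with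
    | _ d ih =>
      intro s hs hsd
      have habs : ∀ c : ℤ, |c| ≤ 2 → 2 * |b * c| < Q := by
        intro c hc
        rw [abs_mul]
        have := abs_nonneg b
        nlinarith
      rcases Nat.lt_or_ge d 3 with hd | hd
      · have h1 := hstep s (s + d) hs hsd (by
          rw [show b * (s + d - s) = b * d by ring]
          refine habs _ ?_
          rw [abs_of_nonneg (Int.natCast_nonneg d)]
          omega)
        rw [h1]
        ring
      · have hmid : ∀ c : ℤ, 0 ≤ c → c ≤ d → |((s + c : ℤ) : ℚ) + Q * x₀| < δ * Q := by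
          intro c hc1 hc2
          have hc1' : (0 : ℚ) ≤ c := by exact_mod_cast hc1
          have hc2' : (c : ℚ) ≤ d := by exact_mod_cast hc2
          have h1 := abs_lt.1 hs.2
          have h2 := abs_lt.1 hsd.2
          push_cast at h1 h2 ⊢
          rw [abs_lt]
          constructor <;> linarith [h1.1, h2.2]
        by_cases d1 : (r : ℤ) ∣ s + 1
        · have g2 : Good (s + 2) := by
            refine ⟨?_, hmid 2 (by norm_num) (by exact_mod_cast (by omega : 2 ≤ d))⟩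
            intro h
            have h3 := dvd_sub h d1
            rw [show s + 2 - (s + 1) = 1 by ring] at h3
            have h4 := Int.le_of_dvd one_pos h3
            omega
          have e1 := hstep s (s + 2) hs g2 (by
            rw [show b * (s + 2 - s) = b * 2 by ring]
            exact habs 2 (by norm_num))
          have e2 := ih (d - 2) (by omega) (s + 2) g2 (by
            rw [show s + 2 + ((d - 2 : ℕ) : ℤ) = s + d by omega]
            exact hsd)
          rw [show s + 2 + ((d - 2 : ℕ) : ℤ) = s + d by omega] at e2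
          have e3 : ((d - 2 : ℕ) : ℤ) = d - 2 := by omega
          rw [e3] at e2
          linear_combination e1 + e2
        · have g1 : Good (s + 1) := ⟨d1, hmid 1 (by norm_num) (by exact_mod_cast (by omega : 1 ≤ d))⟩
          have e1 := hstep s (s + 1) hs g1 (by
            rw [show b * (s + 1 - s) = b * 1 by ring]
            exact habs 1 (by norm_num))
          have e2 := ih (d - 1) (by omega) (s + 1) g1 (by
            rw [show s + 1 + ((d - 1 : ℕ) : ℤ) = s + d by omega]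
            exact hsd)
          rw [show s + 1 + ((d - 1 : ℕ) : ℤ) = s + d by omega] at e2
          have e3 : ((d - 1 : ℕ) : ℤ) = d - 1 := by omega
          rw [e3] at e2
          linear_combination e1 + e2
  -- the ends
  obtain ⟨s₁, h11, h12, h13⟩ := exists_unit_left (r := r) (by omega) (-Q * x₀ - δ * Q)
  obtain ⟨s₂, h21, h22, h23⟩ := exists_unit_right (r := r) (by omega) (-Q * x₀ + δ * Q)
  have hlen : 2 * δ * Q - 4 ≤ (s₂ : ℚ) - s₁ := by linarith
  have g1 : Good s₁ := ⟨h13, by rw [abs_lt]; constructor <;> linarith⟩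
  have g2 : Good s₂ := ⟨h23, by rw [abs_lt]; constructor <;> linarith⟩
  have hlt : s₁ < s₂ := by
    have : (s₁ : ℚ) < s₂ := by linarith
    exact_mod_cast this
  obtain ⟨d, hd⟩ := Int.eq_ofNat_of_zero_le (by omega : 0 ≤ s₂ - s₁)
  have hs2 : s₂ = s₁ + d := by omega
  have e1 := hlin d s₁ g1 (by rw [← hs2]; exact g2)
  have e2 := hdiff s₁ s₂ g1 g2
  rw [hs2, e1] at e2
  by_contra hb1
  have hb2 : (2 : ℤ) ≤ |b| := by omega
  have hb2' : (2 : ℚ) ≤ |(b : ℚ)| := by exact_mod_cast hb2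
  have hdq : ((d : ℤ) : ℚ) = (s₂ : ℚ) - s₁ := by
    rw [← Int.cast_sub, hd]
  have e3 : |((b * (d : ℤ) : ℤ) : ℚ)| = |(b : ℚ)| * ((s₂ : ℚ) - s₁) := by
    rw [Int.cast_mul, abs_mul, hdq, abs_of_nonneg (by linarith : (0 : ℚ) ≤ (s₂ : ℚ) - s₁)]
  rw [e3] at e2
  have e4 : 2 * ((s₂ : ℚ) - s₁) ≤ |(b : ℚ)| * ((s₂ : ℚ) - s₁) :=
    mul_le_mul_of_nonneg_right hb2' (by linarith)
  linarith

/-- **Claim 3**: different centres. -/
theorem exists_of_far {r Q : ℕ} (hr : 2 ≤ r) (hQ : 12 < Q) {δ x₀ y₀ : ℚ} (h4 : 4 * δ ≤ 1)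
    (hδ : 8 < 2 * (Q : ℚ) * δ) (hfar : ∀ k : ℤ, 1 / 6 ≤ |y₀ - x₀ - k|) :
    ∃ s : ℤ, ¬ (r : ℤ) ∣ s ∧ InW δ (s / Q + x₀) ∧ ¬ InW δ (s / Q + y₀) := by
  have hQ0 : (12 : ℚ) < Q := by exact_mod_cast hQ
  have hQ1 : (0 : ℚ) < Q := by linarith
  have hδ0 : 0 < δ := by
    by_contra h
    have : 2 * (Q : ℚ) * δ ≤ 0 := mul_nonpos_of_nonneg_of_nonpos (by linarith) (not_lt.1 h)
    linarith
  have h1 := hfar (round (y₀ - x₀))
  have h2 := abs_sub_round (y₀ - x₀)
  set k₀ := round (y₀ - x₀) with hk₀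
  set D : ℚ := y₀ - x₀ - k₀ with hD
  have hy : ∀ s : ℤ, (s : ℚ) / Q + y₀ = ((s : ℚ) / Q + x₀ + D) + k₀ := by
    intro s
    rw [hD]
    ring
  have hsx : ∀ s : ℤ, (s : ℚ) / Q + x₀ = (s + Q * x₀) / Q := by
    intro s
    field_simp
  rcases le_or_gt 0 D with hD0 | hD0
  · rw [abs_of_nonneg hD0] at h1 h2
    obtain ⟨s, hs1, hs2, hs3⟩ := exists_unit_btw (r := r) hr (x := -Q * x₀ + δ * Q - min (Q * D) (2 * δ * Q))
      (y := -Q * x₀ + δ * Q) (by
        rw [sub_sub_cancel]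
        refine lt_min ?_ (by linarith)
        nlinarith)
    have m1 := min_le_left (Q * D) (2 * δ * Q)
    have m2 := min_le_right (Q * D) (2 * δ * Q)
    refine ⟨s, hs3, ⟨0, ?_⟩, ?_⟩
    · rw [Int.cast_zero, sub_zero, hsx, abs_div, abs_of_pos hQ1, div_lt_iff₀ hQ1, abs_lt]
      constructor <;> linarith
    · rw [hy, InW_add_int]
      have a1 : δ - D < (s : ℚ) / Q + x₀ := by
        rw [hsx, lt_div_iff₀ hQ1]
        linarith
      have a2 : (s : ℚ) / Q + x₀ < δ := by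
        rw [hsx, div_lt_iff₀ hQ1]
        linarith
      exact not_InW (by linarith) (by linarith) hδ0.le
  · rw [abs_of_neg hD0] at h1 h2
    obtain ⟨s, hs1, hs2, hs3⟩ := exists_unit_btw (r := r) hr (x := -Q * x₀ - δ * Q)
      (y := -Q * x₀ - δ * Q + min (Q * (-D)) (2 * δ * Q)) (by
        rw [add_sub_cancel_left]
        refine lt_min ?_ (by linarith)
        nlinarith)
    have m1 := min_le_left (Q * (-D)) (2 * δ * Q)
    have m2 := min_le_right (Q * (-D)) (2 * δ * Q)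
    refine ⟨s, hs3, ⟨0, ?_⟩, ?_⟩
    · rw [Int.cast_zero, sub_zero, hsx, abs_div, abs_of_pos hQ1, div_lt_iff₀ hQ1, abs_lt]
      constructor <;> linarith
    · rw [hy, InW_add_int, ← InW_neg]
      have a1 : -δ < (s : ℚ) / Q + x₀ := by
        rw [hsx, lt_div_iff₀ hQ1]
        linarith
      have a2 : (s : ℚ) / Q + x₀ < -δ - D := by
        rw [hsx, div_lt_iff₀ hQ1]
        linarith
      exact not_InW (by linarith) (by linarith) hδ0.le

end Pool.Agent.Helper21.KQ
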